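import Pool.Agent.ZPU.Stmts

/-!
# Squad ZPU, row RFF (helper6): the residue field
-/

set_option autoImplicit false

namespace Pool.Agent.ZPU.H6

open Pool.Agent.ZPU Pool.Agent.ZPT Pool.Agent.ZP3

/-- The ideal of the elements of norm `< 1`. -/
def mI (K : Type) [NormedField K] [IsUltrametricDist K] : Ideal (OO K) where
  carrier := {x | ‖(x : K)‖ < 1}
  add_mem' := by
    intro a b ha hb
    have ha' : ‖(a : K)‖ < 1 := ha
    have hb' : ‖(b : K)‖ < 1 := hb
    show ‖((a + b : OO K) : K)‖ < 1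
    rw [Subring.coe_add]
    exact (IsUltrametricDist.norm_add_le_max _ _).trans_lt (max_lt ha' hb')
  zero_mem' := by
    show ‖((0 : OO K) : K)‖ < 1
    simp
  smul_mem' := by
    intro c x hx
    have hx' : ‖(x : K)‖ < 1 := hx
    have hc : ‖(c : K)‖ ≤ 1 := c.2
    show ‖((c • x : OO K) : K)‖ < 1
    rw [smul_eq_mul, Subring.coe_mul, norm_mul]
    exact mul_lt_one_of_nonneg_of_lt_one_right hc (norm_nonneg _) hx'

theorem mem_mI {K : Type} [NormedField K] [IsUltrametricDist K] (x : OO K) :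
    x ∈ mI K ↔ ‖(x : K)‖ < 1 := Iff.rfl

theorem mI_max (K : Type) [NormedField K] [IsUltrametricDist K] : (mI K).IsMaximal := by
  refine Ideal.isMaximal_iff.2 ⟨?_, ?_⟩
  · rw [mem_mI]
    simp
  · intro J x _ hx hxJ
    rw [mem_mI, not_lt] at hx
    have hx1 : ‖(x : K)‖ = 1 := le_antisymm x.2 hx
    have hx0 : (x : K) ≠ 0 := by
      intro h
      rw [h, norm_zero] at hx1
      exact zero_ne_one hx1
    have hinv : ‖((x : K))⁻¹‖ ≤ 1 := by rw [norm_inv, hx1, inv_one]
    have h1 : (⟨(x : K)⁻¹, hinv⟩ : OO K) * x = 1 := by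
      apply Subtype.ext
      show (x : K)⁻¹ * (x : K) = 1
      exact inv_mul_cancel₀ hx0
    rw [← h1]
    exact J.mul_mem_left _ hxJ

theorem rff : RFFStmt := by
  intro p hp K _ _ _ hE
  have hmax := mI_max K
  letI : Field (OO K ⧸ mI K) := Ideal.Quotient.field (mI K)
  have hp0 : ((p : ℕ) : OO K ⧸ mI K) = 0 := by
    have h1 : (Ideal.Quotient.mk (mI K)) ((p : ℕ) : OO K) = 0 := by
      rw [Ideal.Quotient.eq_zero_iff_mem, mem_mI]
      have h2 := hE (p : ℚ)
      have h3 : (((p : ℚ) : K)) = (((p : ℕ) : OO K) : K) := by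
        push_cast
        rfl
      rw [← h3, h2]
      haveI : Fact p.Prime := ⟨hp⟩
      rw [padicNorm.padicNorm_p hp.one_lt]
      push_cast
      exact inv_lt_one_of_one_lt₀ (by exact_mod_cast hp.one_lt)
    rw [map_natCast] at h1
    exact h1
  have hchar : CharP (OO K ⧸ mI K) p := by
    have h4 := CharP.ringChar_of_prime_eq_zero hp hp0
    exact ringChar.of_eq h4
  refine ⟨OO K ⧸ mI K, inferInstance, hchar, Ideal.Quotient.mk (mI K), ?_⟩
  intro x
  rw [Ideal.Quotient.eq_zero_iff_mem, mem_mI]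

end Pool.Agent.ZPU.H6
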